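import Mathlib

/-!
# EULL: the series and the Euler product of `L(s + iτ, χ)`

`twist_term`: `LSeries.term (χ n n^(-iτ)) s n = LSeries.term χ (s + iτ) n` for all `n` (`n = 0`: both zero), so
`twist_summable` and `twist_eq` follow from `DirichletCharacter.LSeriesSummable_of_one_lt_re`, `LFunction_eq_LSeries`
(`Re (s + iτ) = Re s`).
`euler_L`: `b n = (Λ(n)/log n) χ(n) n^(-iτ)`: for `n = p^l` (`l ≥ 1`) `Λ(n)/log n = 1/l`
(`ArithmeticFunction.vonMangoldt_apply_pow`, `vonMangoldt_apply_prime`), `‖b(p^l)‖ ≤ 1/l ≤ 1`.  For `Re s > 1` and a prime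
`p`, `z = χ(p) p^(-(s+iτ))`, `‖z‖ < 1`: `∑ b(p^(l+1)) p^(-(l+1)s) = ∑ z^(l+1)/(l+1) = -log(1-z)`
(`Complex.hasSum_taylorSeries_neg_log`), `exp` of it is `(1-z)⁻¹`; then
`DirichletCharacter.LSeries_eulerProduct_hasProd` at `s + iτ`.
-/

set_option autoImplicit false

namespace Pool.Agent.H11.SC7

open Complex DirichletCharacter

private theorem eulL_term {N : ℕ} (χ : DirichletCharacter ℂ N) (τ : ℝ) (s : ℂ) :
    LSeries.term (fun n : ℕ => χ (n : ZMod N) * (n : ℂ) ^ (-((τ : ℂ) * I))) s =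
      LSeries.term (fun n : ℕ => χ (n : ZMod N)) (s + τ * I) := by
  funext n
  rw [LSeries.term_def, LSeries.term_def]
  split_ifs with hn
  · rfl
  · have hn' : (n : ℂ) ≠ 0 := Nat.cast_ne_zero.2 hn
    rw [cpow_neg, cpow_add _ _ hn']
    field_simp

private theorem eulL_re (τ : ℝ) (s : ℂ) (hs : 1 < s.re) : 1 < (s + τ * I).re := by
  simpa using hs

theorem twist_summable {N : ℕ} (χ : DirichletCharacter ℂ N) (τ : ℝ) (s : ℂ) (hs : 1 < s.re) :
    LSeriesSummable (fun n : ℕ => χ (n : ZMod N) * (n : ℂ) ^ (-((τ : ℂ) * I))) s := by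
  have h := LSeriesSummable_of_one_lt_re χ (eulL_re τ s hs)
  unfold LSeriesSummable at h ⊢
  rw [eulL_term]
  exact h

theorem twist_eq {N : ℕ} [NeZero N] (χ : DirichletCharacter ℂ N) (τ : ℝ) (s : ℂ) (hs : 1 < s.re) :
    LFunction χ (s + τ * I) =
      LSeries (fun n : ℕ => χ (n : ZMod N) * (n : ℂ) ^ (-((τ : ℂ) * I))) s := by
  rw [LFunction_eq_LSeries χ (eulL_re τ s hs), LSeries, LSeries, eulL_term]

private theorem eulL_norm {N : ℕ} (χ : DirichletCharacter ℂ N) (τ : ℝ) (n : ℕ) :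
    ‖χ (n : ZMod N) * (n : ℂ) ^ (-((τ : ℂ) * I))‖ ≤ 1 := by
  rw [norm_mul]
  have h1 : ‖χ (n : ZMod N)‖ ≤ 1 := χ.norm_le_one _
  have h2 : ‖(n : ℂ) ^ (-((τ : ℂ) * I))‖ ≤ 1 := by
    rcases Nat.eq_zero_or_pos n with rfl | hn
    · rw [Nat.cast_zero]
      by_cases h : -((τ : ℂ) * I) = 0
      · rw [h, cpow_zero, norm_one]
      · rw [zero_cpow h, norm_zero]
        exact zero_le_one
    · rw [norm_natCast_cpow_of_pos hn]
      simp
  calc ‖χ (n : ZMod N)‖ * ‖(n : ℂ) ^ (-((τ : ℂ) * I))‖ ≤ 1 * 1 :=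
        mul_le_mul h1 h2 (norm_nonneg _) zero_le_one
    _ = 1 := one_mul 1

private theorem eulL_ratio (p l : ℕ) (hp : p.Prime) :
    ArithmeticFunction.vonMangoldt (p ^ (l + 1)) / Real.log ((p ^ (l + 1) : ℕ) : ℝ) =
      1 / ((l : ℝ) + 1) := by
  have hlog : 0 < Real.log (p : ℝ) := Real.log_pos (by exact_mod_cast hp.one_lt)
  rw [ArithmeticFunction.vonMangoldt_apply_pow (Nat.succ_ne_zero l),
    ArithmeticFunction.vonMangoldt_apply_prime hp, Nat.cast_pow, Real.log_pow]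
  push_cast
  field_simp

theorem euler_L {N : ℕ} (χ : DirichletCharacter ℂ N) (τ : ℝ) : ∃ b : ℕ → ℂ,
    (∀ p : ℕ, p.Prime → ∀ l : ℕ, 1 ≤ l → ‖b (p ^ l)‖ ≤ 1) ∧
    ∀ s : ℂ, 1 < s.re → HasProd
      (fun p : Nat.Primes => Complex.exp (∑' l : ℕ, b ((p : ℕ) ^ (l + 1)) *
        ((p : ℕ) : ℂ) ^ (-((l : ℂ) + 1) * s)))
      (LSeries (fun n : ℕ => χ (n : ZMod N) * (n : ℂ) ^ (-((τ : ℂ) * I))) s) := by
  refine ⟨fun n => ((ArithmeticFunction.vonMangoldt n / Real.log (n : ℝ) : ℝ) : ℂ) *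
    (χ (n : ZMod N) * (n : ℂ) ^ (-((τ : ℂ) * I))), ?_, ?_⟩
  · intro p hp l hl
    obtain ⟨k, rfl⟩ : ∃ k, l = k + 1 := ⟨l - 1, by omega⟩
    rw [norm_mul, eulL_ratio p k hp, norm_real]
    have h1 : ‖(1 : ℝ) / ((k : ℝ) + 1)‖ ≤ 1 := by
      rw [Real.norm_of_nonneg (by positivity), div_le_one (by positivity)]
      have := Nat.cast_nonneg (α := ℝ) k
      linarith
    calc _ ≤ (1 : ℝ) * 1 := mul_le_mul h1 (eulL_norm χ τ _) (norm_nonneg _) zero_le_one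
      _ = 1 := one_mul 1
  · intro s hs
    have hprod := LSeries_eulerProduct_hasProd χ (eulL_re τ s hs)
    have e1 : LSeries (fun n : ℕ => χ (n : ZMod N) * (n : ℂ) ^ (-((τ : ℂ) * I))) s =
        LSeries (fun n : ℕ => χ (n : ZMod N)) (s + τ * I) := by
      rw [LSeries, LSeries, eulL_term]
    rw [e1]
    refine Eq.mp ?_ hprod
    congr 1
    funext p
    obtain ⟨p, hp⟩ := p
    show (1 - χ (p : ZMod N) * (p : ℂ) ^ (-(s + τ * I)))⁻¹ = _
    have hpc : (p : ℂ) ≠ 0 := Nat.cast_ne_zero.2 hp.ne_zero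
    set z : ℂ := χ (p : ZMod N) * (p : ℂ) ^ (-(s + τ * I)) with hz
    have hz1 : ‖z‖ < 1 := by
      rw [hz, norm_mul, norm_natCast_cpow_of_pos hp.pos]
      have h1 : ‖χ (p : ZMod N)‖ ≤ 1 := χ.norm_le_one _
      have h2 : (p : ℝ) ^ (-(s + τ * I)).re < 1 := by
        refine Real.rpow_lt_one_of_one_lt_of_neg (by exact_mod_cast hp.one_lt) ?_
        have := eulL_re τ s hs
        rw [neg_re]
        linarith
      calc ‖χ (p : ZMod N)‖ * (p : ℝ) ^ (-(s + τ * I)).re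
          ≤ 1 * (p : ℝ) ^ (-(s + τ * I)).re :=
            mul_le_mul_of_nonneg_right h1 (by positivity)
        _ < 1 := by rw [one_mul]; exact h2
    have hsum : HasSum (fun l : ℕ => ((ArithmeticFunction.vonMangoldt (p ^ (l + 1)) /
        Real.log ((p ^ (l + 1) : ℕ) : ℝ) : ℝ) : ℂ) *
        (χ ((p ^ (l + 1) : ℕ) : ZMod N) * ((p ^ (l + 1) : ℕ) : ℂ) ^ (-((τ : ℂ) * I))) *
        (p : ℂ) ^ (-((l : ℂ) + 1) * s)) (-log (1 - z)) := by
      refine (hasSum_taylorSeries_neg_log' hz1).congr_fun ?_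
      intro l
      rw [eulL_ratio p l hp, hz, mul_pow, Nat.cast_pow, Nat.cast_pow, map_pow]
      have e2 : ((p : ℂ) ^ (l + 1)) ^ (-((τ : ℂ) * I)) =
          (p : ℂ) ^ (((l + 1 : ℕ) : ℂ) * (-((τ : ℂ) * I))) := by
        rw [natCast_cpow_natCast_mul]
      have e3 : ((p : ℂ) ^ (-(s + τ * I))) ^ (l + 1) =
          (p : ℂ) ^ (((l + 1 : ℕ) : ℂ) * (-((τ : ℂ) * I))) * (p : ℂ) ^ (-((l : ℂ) + 1) * s) := by
        rw [← cpow_nat_mul, ← cpow_add _ _ hpc]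
        congr 1
        push_cast
        ring
      rw [e2, e3]
      push_cast
      field_simp
    rw [hsum.tsum_eq, Complex.exp_neg, Complex.exp_log]
    intro h
    have : z = 1 := (sub_eq_zero.1 h).symm
    rw [this, norm_one] at hz1
    exact lt_irrefl _ hz1

end Pool.Agent.H11.SC7
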