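import Mathlib

/-!
# GAMB: a crude bound for the Gamma function

`‖Γ(s)‖ ≤ Γ(Re s)` for `Re s > 0` (norm of the Euler integral: `Complex.Gamma_eq_integral`, `Real.Gamma_eq_integral`,
`norm_integral_le_integral_norm`).  For `x ≥ 1/2`: `Γ(x) ≤ C exp(x²)`: `Γ(x) = Γ(x+1)/x ≤ 2 Γ(x+1)`, and
`t^x ≤ exp (x log (2(x+1)) + t/2)`, so `Γ(x+1) ≤ 2 exp (x log (2(x+1)))`.
-/

set_option autoImplicit false

namespace Pool.Agent.H11.SC7

private lemma h58_log_le (x t : ℝ) (hx : 0 ≤ x) (ht : 0 < t) :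
    t ^ x ≤ Real.exp (x * Real.log (2 * (x + 1))) * Real.exp (t / 2) := by
  rw [Real.rpow_def_of_pos ht, ← Real.exp_add]
  apply Real.exp_le_exp.mpr
  have ha : (0 : ℝ) < 2 * (x + 1) := by linarith
  have h1 : Real.log (t / (2 * (x + 1))) ≤ t / (2 * (x + 1)) - 1 :=
    Real.log_le_sub_one_of_pos (div_pos ht ha)
  rw [Real.log_div ht.ne' ha.ne'] at h1
  have h2 : Real.log t ≤ Real.log (2 * (x + 1)) + t / (2 * (x + 1)) := by linarith
  have h3 : x * (t / (2 * (x + 1))) ≤ t / 2 := by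
    have : x * (t / (2 * (x + 1))) = (t / 2) * (x / (x + 1)) := by
      field_simp
    rw [this]
    have h4 : x / (x + 1) ≤ 1 := by
      rw [div_le_one (by linarith)]
      linarith
    have h5 : 0 ≤ t / 2 := by linarith
    calc (t / 2) * (x / (x + 1)) ≤ (t / 2) * 1 := mul_le_mul_of_nonneg_left h4 h5
      _ = t / 2 := mul_one _
  calc Real.log t * x = x * Real.log t := mul_comm _ _
    _ ≤ x * (Real.log (2 * (x + 1)) + t / (2 * (x + 1))) := mul_le_mul_of_nonneg_left h2 hx
    _ = x * Real.log (2 * (x + 1)) + x * (t / (2 * (x + 1))) := by ring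
    _ ≤ x * Real.log (2 * (x + 1)) + t / 2 := by linarith

private lemma h58_Gamma_succ_le (x : ℝ) (hx : 0 ≤ x) :
    Real.Gamma (x + 1) ≤ 2 * Real.exp (x * Real.log (2 * (x + 1))) := by
  rw [Real.Gamma_eq_integral (by linarith)]
  have hint : MeasureTheory.IntegrableOn
      (fun t : ℝ => Real.exp (x * Real.log (2 * (x + 1))) * Real.exp (-(1 / 2) * t)) (Set.Ioi 0) := by
    have := integrableOn_exp_mul_Ioi (a := -(1 / 2 : ℝ)) (by norm_num) 0
    exact this.const_mul _
  calc ∫ t in Set.Ioi (0 : ℝ), Real.exp (-t) * t ^ (x + 1 - 1)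
      ≤ ∫ t in Set.Ioi (0 : ℝ),
          Real.exp (x * Real.log (2 * (x + 1))) * Real.exp (-(1 / 2) * t) := by
        apply MeasureTheory.setIntegral_mono_on (Real.GammaIntegral_convergent (by linarith)) hint
          measurableSet_Ioi
        intro t ht
        have ht0 : 0 < t := ht
        rw [add_sub_cancel_right]
        calc Real.exp (-t) * t ^ x
            ≤ Real.exp (-t) * (Real.exp (x * Real.log (2 * (x + 1))) * Real.exp (t / 2)) :=
              mul_le_mul_of_nonneg_left (h58_log_le x t hx ht0) (Real.exp_pos _).le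
          _ = Real.exp (x * Real.log (2 * (x + 1))) * (Real.exp (-t) * Real.exp (t / 2)) := by ring
          _ = Real.exp (x * Real.log (2 * (x + 1))) * Real.exp (-(1 / 2) * t) := by
              rw [← Real.exp_add]
              congr 2
              ring
    _ = 2 * Real.exp (x * Real.log (2 * (x + 1))) := by
        rw [MeasureTheory.integral_const_mul, integral_exp_mul_Ioi (by norm_num)]
        simp
        ring

private lemma h58_Gamma_le (x : ℝ) (hx : 1 / 2 ≤ x) :
    Real.Gamma x ≤ 4 * Real.exp (1 / 2) * Real.exp (x ^ 2) := by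
  have h0 : 0 < x := by linarith
  have h1 : Real.Gamma (x + 1) = x * Real.Gamma x := Real.Gamma_add_one h0.ne'
  have h2 := h58_Gamma_succ_le x h0.le
  have hG : 0 < Real.Gamma x := Real.Gamma_pos_of_pos h0
  have h3 : Real.Gamma x ≤ 4 * Real.exp (x * Real.log (2 * (x + 1))) := by
    nlinarith
  have hlog : Real.log (2 * (x + 1)) ≤ x / 2 + 1 := by
    have ha : (0 : ℝ) < (2 * (x + 1)) / 4 := by linarith
    have h4 := Real.log_le_sub_one_of_pos ha
    rw [Real.log_div (by linarith) (by norm_num)] at h4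
    have h5 : Real.log 4 < 1.4 := by
      have : (4 : ℝ) = 2 ^ 2 := by norm_num
      rw [this, Real.log_pow]
      have := Real.log_two_lt_d9
      push_cast
      linarith
    linarith
  have h6 : x * Real.log (2 * (x + 1)) ≤ 1 / 2 + x ^ 2 := by
    have : x * Real.log (2 * (x + 1)) ≤ x * (x / 2 + 1) := mul_le_mul_of_nonneg_left hlog h0.le
    nlinarith [sq_nonneg (x - 1)]
  calc Real.Gamma x ≤ 4 * Real.exp (x * Real.log (2 * (x + 1))) := h3
    _ ≤ 4 * Real.exp (1 / 2 + x ^ 2) :=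
        mul_le_mul_of_nonneg_left (Real.exp_le_exp.mpr h6) (by norm_num)
    _ = 4 * Real.exp (1 / 2) * Real.exp (x ^ 2) := by rw [Real.exp_add]; ring

private lemma h58_norm_Gamma_le (s : ℂ) (hs : 0 < s.re) :
    ‖Complex.Gamma s‖ ≤ Real.Gamma s.re := by
  rw [Complex.Gamma_eq_integral hs, Real.Gamma_eq_integral hs, Complex.GammaIntegral]
  refine (MeasureTheory.norm_integral_le_integral_norm _).trans (le_of_eq ?_)
  apply MeasureTheory.setIntegral_congr_fun measurableSet_Ioi
  intro t ht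
  have ht0 : 0 < t := ht
  simp only [norm_mul]
  rw [Complex.norm_cpow_eq_rpow_re_of_pos ht0]
  simp [Complex.norm_exp]

theorem gamma_bound : ∃ C : ℝ, 0 ≤ C ∧ ∀ s : ℂ, 1 / 2 ≤ s.re →
    ‖Complex.Gamma s‖ ≤ C * Real.exp (‖s‖ ^ 2) := by
  refine ⟨4 * Real.exp (1 / 2), by positivity, fun s hs => ?_⟩
  have h1 := h58_norm_Gamma_le s (by linarith)
  have h2 := h58_Gamma_le s.re hs
  have h3 : s.re ^ 2 ≤ ‖s‖ ^ 2 := by
    have h4 : |s.re| ≤ ‖s‖ := Complex.abs_re_le_norm s
    rw [← sq_abs]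
    exact pow_le_pow_left₀ (abs_nonneg _) h4 2
  exact (h1.trans h2).trans (mul_le_mul_of_nonneg_left (Real.exp_le_exp.mpr h3) (by positivity))

end Pool.Agent.H11.SC7
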