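import Mathlib
import Pool.Agent.H11.SC7.GamB
import Pool.Agent.H11.SC7.ZetaB

/-!
# ZETAO: `(s - 1) ζ(s)` is entire of finite order

`G s = (s-1) ζ(s)` for `s ≠ 1`, `G 1 = 1`: differentiable off `1` (`differentiableAt_riemannZeta`), continuous at `1`
(`riemannZeta_residue_one`), so differentiable (`Function.update` and
`Complex.differentiableOn_update_limUnder_of_isLittleO`, or
`differentiableOn_compl_singleton_and_continuousAt_iff`).
Bound: `Re s ≥ 1/2`: `zeta_half` (and continuity at `s = 1`: `‖G 1‖ = 1`).  `Re w ≤ 1/2`, `‖w‖ ≤ 1/4`: compactness.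
`Re w ≤ 1/2`, `‖w‖ ≥ 1/4`: put `s = 1 - w`, `Re s ≥ 1/2`, `‖s - 1‖ ≥ 1/4`, `riemannZeta_one_sub`:
`ζ(w) = 2 (2π)^(-s) Γ(s) cos(πs/2) ζ(s)`, `‖ζ(s)‖ ≤ 4 ‖(s-1) ζ(s)‖`, `‖(2π)^(-s)‖ ≤ 1`, `‖cos(πs/2)‖ ≤ exp(2‖s‖)`,
`gamma_bound`, `‖s‖ ≤ 1 + ‖w‖`.  So `‖G w‖ ≤ C exp(‖w‖^3)` (adjust `C`); take `A = 3`.
-/

set_option autoImplicit false

namespace Pool.Agent.H11.SC7

open Complex Filter Topology in
private theorem zetao_diff (G : ℂ → ℂ) (hG : G = Function.update (fun s : ℂ => (s - 1) * riemannZeta s) 1 1) :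
    Differentiable ℂ G := by
  rw [← differentiableOn_univ]
  rw [← Complex.differentiableOn_compl_singleton_and_continuousAt_iff (c := (1 : ℂ)) univ_mem]
  constructor
  · intro s hs
    have hs1 : s ≠ 1 := by
      simpa using hs
    apply DifferentiableAt.differentiableWithinAt
    have h1 : DifferentiableAt ℂ (fun s : ℂ => (s - 1) * riemannZeta s) s :=
      (differentiableAt_id.sub_const 1).mul (differentiableAt_riemannZeta hs1)
    refine h1.congr_of_eventuallyEq ?_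
    filter_upwards [isOpen_ne.mem_nhds hs1] with z hz
    rw [hG, Function.update_of_ne hz]
  · rw [hG, continuousAt_update_same]
    exact riemannZeta_residue_one

private theorem zetao_cos (z : ℂ) : ‖Complex.cos z‖ ≤ Real.exp ‖z‖ := by
  rw [Complex.cos]
  have h1 : ‖Complex.exp (z * Complex.I)‖ ≤ Real.exp ‖z‖ := by
    refine (Complex.norm_exp_le_exp_norm _).trans ?_
    rw [norm_mul, Complex.norm_I, mul_one]
  have h2 : ‖Complex.exp (-z * Complex.I)‖ ≤ Real.exp ‖z‖ := by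
    refine (Complex.norm_exp_le_exp_norm _).trans ?_
    rw [norm_mul, Complex.norm_I, mul_one, norm_neg]
  rw [norm_div, Complex.norm_ofNat]
  have h3 := norm_add_le (Complex.exp (z * Complex.I)) (Complex.exp (-z * Complex.I))
  rw [div_le_iff₀ (by norm_num)]
  linarith

private theorem zetao_left {C0 C1 : ℝ} (hC0 : 0 ≤ C0) (hC1 : 0 ≤ C1)
    (h0 : ∀ s : ℂ, 1 / 2 ≤ s.re → ‖(s - 1) * riemannZeta s‖ ≤ C0 * (1 + ‖s‖) ^ 2)
    (h1 : ∀ s : ℂ, 1 / 2 ≤ s.re → ‖Complex.Gamma s‖ ≤ C1 * Real.exp (‖s‖ ^ 2))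
    (w : ℂ) (hw : w.re ≤ 1 / 2) (hw' : 1 / 4 ≤ ‖w‖) :
    ‖(w - 1) * riemannZeta w‖ ≤ 8 * C0 * C1 * Real.exp 30 * Real.exp (‖w‖ ^ 3) := by
  obtain ⟨s, hs⟩ : ∃ s : ℂ, s = 1 - w := ⟨_, rfl⟩
  have hws : w = 1 - s := by rw [hs]; ring
  have hsre : 1 / 2 ≤ s.re := by
    rw [hs, Complex.sub_re, Complex.one_re]
    linarith
  have hs1 : s ≠ 1 := by
    intro h
    rw [h] at hws
    rw [hws] at hw'
    norm_num at hw'
  have hsn : ∀ n : ℕ, s ≠ -n := by
    intro n h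
    rw [h] at hsre
    simp at hsre
    have : (0 : ℝ) ≤ n := n.cast_nonneg
    linarith
  have hsn1 : 1 / 4 ≤ ‖s - 1‖ := by
    have : s - 1 = -w := by rw [hs]; ring
    rw [this, norm_neg]
    exact hw'
  have hsnorm : ‖s‖ ≤ 1 + ‖w‖ := by
    rw [hs]
    refine (norm_sub_le _ _).trans ?_
    rw [norm_one]
  have hz : ‖riemannZeta s‖ ≤ 4 * (C0 * (1 + ‖s‖) ^ 2) := by
    have h2 := h0 s hsre
    rw [norm_mul] at h2
    have h3 : 1 / 4 * ‖riemannZeta s‖ ≤ ‖s - 1‖ * ‖riemannZeta s‖ :=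
      mul_le_mul_of_nonneg_right hsn1 (norm_nonneg _)
    linarith
  have hpi : ‖(2 * (Real.pi : ℂ)) ^ (-s)‖ ≤ 1 := by
    have e : (2 * (Real.pi : ℂ)) = ((2 * Real.pi : ℝ) : ℂ) := by push_cast; rfl
    rw [e, Complex.norm_cpow_eq_rpow_re_of_pos (by positivity)]
    apply Real.rpow_le_one_of_one_le_of_nonpos
    · have := Real.pi_gt_three
      linarith
    · rw [Complex.neg_re]
      linarith
  have hcos : ‖Complex.cos (Real.pi * s / 2)‖ ≤ Real.exp (2 * ‖s‖) := by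
    refine (zetao_cos _).trans ?_
    rw [Real.exp_le_exp, norm_div, norm_mul, Complex.norm_ofNat, Complex.norm_real,
      Real.norm_of_nonneg Real.pi_pos.le, div_le_iff₀ (by norm_num)]
    have := Real.pi_lt_four
    nlinarith [norm_nonneg s]
  have hw1 : ‖w - 1‖ = ‖s‖ := by
    have : w - 1 = -s := by rw [hs]; ring
    rw [this, norm_neg]
  rw [norm_mul, hw1, hws, riemannZeta_one_sub hsn hs1, ← hws, norm_mul, norm_mul, norm_mul, norm_mul,
    Complex.norm_ofNat]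
  have hx : 0 ≤ ‖s‖ := norm_nonneg _
  have hy : 0 ≤ ‖w‖ := norm_nonneg _
  calc ‖s‖ * (2 * ‖(2 * (Real.pi : ℂ)) ^ (-s)‖ * ‖Complex.Gamma s‖ * ‖Complex.cos (Real.pi * s / 2)‖ *
        ‖riemannZeta s‖)
      ≤ ‖s‖ * (2 * 1 * (C1 * Real.exp (‖s‖ ^ 2)) * Real.exp (2 * ‖s‖) *
        (4 * (C0 * (1 + ‖s‖) ^ 2))) := by
        gcongr
        exact h1 s hsre
    _ ≤ (1 + ‖s‖) * (2 * 1 * (C1 * Real.exp (‖s‖ ^ 2)) * Real.exp (2 * ‖s‖) *
        (4 * (C0 * (1 + ‖s‖) ^ 2))) := by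
        gcongr
        linarith
    _ = 8 * C0 * C1 * ((1 + ‖s‖) ^ 3 * Real.exp (‖s‖ ^ 2 + 2 * ‖s‖)) := by
        rw [Real.exp_add]
        ring
    _ ≤ 8 * C0 * C1 * (Real.exp (3 * ‖s‖) * Real.exp (‖s‖ ^ 2 + 2 * ‖s‖)) := by
        gcongr
        have h5 : 1 + ‖s‖ ≤ Real.exp ‖s‖ := by
          have := Real.add_one_le_exp ‖s‖
          linarith
        calc (1 + ‖s‖) ^ 3 ≤ (Real.exp ‖s‖) ^ 3 := by gcongr
          _ = Real.exp (3 * ‖s‖) := by
            rw [← Real.exp_nat_mul]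
            norm_num
    _ = 8 * C0 * C1 * Real.exp (‖s‖ ^ 2 + 5 * ‖s‖) := by
        rw [← Real.exp_add]
        ring_nf
    _ ≤ 8 * C0 * C1 * Real.exp (30 + ‖w‖ ^ 3) := by
        apply mul_le_mul_of_nonneg_left _ (by positivity)
        rw [Real.exp_le_exp]
        have h6 : ‖s‖ ^ 2 ≤ (1 + ‖w‖) ^ 2 := by gcongr
        nlinarith [mul_nonneg hy (sq_nonneg (‖w‖ - 2)), sq_nonneg (‖w‖ - 2)]
    _ = _ := by
        rw [Real.exp_add]
        ring

theorem zeta_cont : ∃ G : ℂ → ℂ, Differentiable ℂ G ∧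
    (∃ A C : ℝ, ∀ s, ‖G s‖ ≤ C * Real.exp (‖s‖ ^ A)) ∧
    ∀ s, s ≠ 1 → G s = (s - 1) ^ 1 * riemannZeta s := by
  obtain ⟨C0, hC0, h0⟩ := zeta_half
  obtain ⟨C1, hC1, h1⟩ := gamma_bound
  obtain ⟨G, hG⟩ : ∃ G : ℂ → ℂ, G = Function.update (fun s : ℂ => (s - 1) * riemannZeta s) 1 1 :=
    ⟨_, rfl⟩
  have hd := zetao_diff G hG
  have hGne : ∀ s, s ≠ 1 → G s = (s - 1) * riemannZeta s := by
    intro s hs
    rw [hG, Function.update_of_ne hs]
  have hG1 : G 1 = 1 := by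
    rw [hG, Function.update_self]
  obtain ⟨C2, hC2⟩ := (isCompact_closedBall (0 : ℂ) (1 / 4)).exists_bound_of_continuousOn
    hd.continuous.continuousOn
  have hC2' : 0 ≤ C2 := (norm_nonneg _).trans (hC2 0 (by simp))
  refine ⟨G, hd, ⟨3, 1 + 4 * C0 + 8 * C0 * C1 * Real.exp 30 + C2, ?_⟩, ?_⟩
  · intro s
    have h3 : ‖s‖ ^ (3 : ℝ) = ‖s‖ ^ 3 := by
      rw [← Real.rpow_natCast]
      norm_num
    rw [h3]
    have hx : 0 ≤ ‖s‖ := norm_nonneg _
    have hE : 1 + ‖s‖ ^ 3 ≤ Real.exp (‖s‖ ^ 3) := by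
      have := Real.add_one_le_exp (‖s‖ ^ 3)
      linarith
    have hx3 : 0 ≤ ‖s‖ ^ 3 := by positivity
    have hE1 : 1 ≤ Real.exp (‖s‖ ^ 3) := by linarith
    have hE0 : 0 < Real.exp (‖s‖ ^ 3) := Real.exp_pos _
    have hK : 0 ≤ 8 * C0 * C1 * Real.exp 30 := by positivity
    have hbig : ∀ a b c d : ℝ, 0 ≤ a → 0 ≤ b → 0 ≤ c → 0 ≤ d → ‖G s‖ ≤ a * Real.exp (‖s‖ ^ 3) →
        ‖G s‖ ≤ (a + b + c + d) * Real.exp (‖s‖ ^ 3) := by
      intro a b c d ha hb hc hd h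
      refine h.trans ?_
      apply mul_le_mul_of_nonneg_right _ hE0.le
      linarith
    by_cases hs1 : s = 1
    · have : ‖G s‖ ≤ 1 * Real.exp (‖s‖ ^ 3) := by
        rw [hs1, hG1, norm_one, one_mul]
        rw [hs1] at hE1
        rw [norm_one] at hE1
        exact hE1
      have h4 := hbig 1 (4 * C0) (8 * C0 * C1 * Real.exp 30) C2 zero_le_one (by positivity) hK hC2' this
      exact h4
    · rcases le_total (1 / 2) s.re with h | h
      · have h4 := h0 s h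
        rw [← hGne s hs1] at h4
        have h5 : ‖G s‖ ≤ (4 * C0) * Real.exp (‖s‖ ^ 3) := by
          refine h4.trans ?_
          have h6 : (1 + ‖s‖) ^ 2 ≤ 4 * (1 + ‖s‖ ^ 3) := by
            nlinarith [mul_nonneg hx (sq_nonneg (‖s‖ - 1)), sq_nonneg (‖s‖ - 1)]
          calc C0 * (1 + ‖s‖) ^ 2 ≤ C0 * (4 * (1 + ‖s‖ ^ 3)) := by gcongr
            _ ≤ C0 * (4 * Real.exp (‖s‖ ^ 3)) := by gcongr
            _ = _ := by ring
        have h7 := hbig (4 * C0) 1 (8 * C0 * C1 * Real.exp 30) C2 (by positivity) zero_le_one hK hC2' h5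
        have e : 1 + 4 * C0 + 8 * C0 * C1 * Real.exp 30 + C2 =
          4 * C0 + 1 + 8 * C0 * C1 * Real.exp 30 + C2 := by ring
        rw [e]
        exact h7
      · rcases le_total (1 / 4) ‖s‖ with h' | h'
        · have h4 := zetao_left hC0 hC1 h0 h1 s h h'
          rw [← hGne s hs1] at h4
          have h7 := hbig (8 * C0 * C1 * Real.exp 30) 1 (4 * C0) C2 hK zero_le_one (by positivity) hC2' h4
          have e : 1 + 4 * C0 + 8 * C0 * C1 * Real.exp 30 + C2 =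
            8 * C0 * C1 * Real.exp 30 + 1 + 4 * C0 + C2 := by ring
          rw [e]
          exact h7
        · have h4 := hC2 s (by simpa using h')
          have h5 : ‖G s‖ ≤ C2 * Real.exp (‖s‖ ^ 3) := by
            refine h4.trans ?_
            exact le_mul_of_one_le_right hC2' hE1
          have h7 := hbig C2 1 (4 * C0) (8 * C0 * C1 * Real.exp 30) hC2' zero_le_one (by positivity) hK h5
          have e : 1 + 4 * C0 + 8 * C0 * C1 * Real.exp 30 + C2 =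
            C2 + 1 + 4 * C0 + 8 * C0 * C1 * Real.exp 30 := by ring
          rw [e]
          exact h7
  · intro s hs
    rw [pow_one]
    exact hGne s hs

end Pool.Agent.H11.SC7
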