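import Mathlib

/-!
# LROOT: conjugation and the root number

`LFunction_conj`: for `Re s > 1` from the series (`DirichletCharacter.LFunction_eq_LSeries`; `χ⁻¹ n = conj (χ n)`:
`MulChar.star_apply` or `DirichletCharacter` analogue, `n^(-conj s) = conj (n^(-s))`); both sides of
`conj (L(conj s, χ)) = L(s, χ⁻¹)` are entire for `χ ≠ 1` (`DirichletCharacter.differentiable_LFunction`;
`differentiableAt_conj_conj_iff` as in the proof of `riemannZeta_conj` in Mathlib `NumberTheory/Harmonic/ZetaAsymp.lean`), so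
they agree everywhere (`AnalyticOnNhd.eqOn_of_preconnected_of_eventuallyEq`).
`gammaFactor_conj`: `χ⁻¹` has the parity of `χ`; `Gammaℝ (conj s) = conj (Gammaℝ s)` (`Complex.Gamma_conj`, `cpow_conj`).
`completed_conj`: `completedLFunction χ s = LFunction χ s * gammaFactor χ s` where `gammaFactor χ s ≠ 0`
(`LFunction_eq_completed_div_gammaFactor`, `Gammaℝ_ne_zero_of_re_pos`) for `Re s > 0`, then the identity theorem again
(`differentiable_completedLFunction`).
`rootNumber_norm`: `Λ(1-s, χ) = N^(s-1/2) ε(χ) Λ(s, χ⁻¹)` (`IsPrimitive.completedLFunction_one_sub`).  Take `s = 2` and `s = -1`: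
conjugating the equation for `χ` at `s = 2`: `Λ(-1, χ⁻¹) = N^(3/2) conj ε(χ) Λ(2, χ)`; the equation for `χ⁻¹` at
`s = 2`: `Λ(-1, χ⁻¹) = N^(3/2) ε(χ⁻¹) Λ(2, χ)`; `Λ(2, χ) ≠ 0` (`DirichletCharacter.LFunction_ne_zero_of_one_le_re`, Gamma factor
`≠ 0`), so `ε(χ⁻¹) = conj ε(χ)`.  The equation for `χ` at `s = -1`: `Λ(2, χ) = N^(-3/2) ε(χ) Λ(-1, χ⁻¹)
= ε(χ) ε(χ⁻¹) Λ(2, χ)`, so `ε(χ) conj ε(χ) = 1`.
-/

set_option autoImplicit false

namespace Pool.Agent.H11.SC7

open Complex DirichletCharacter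

/-- conjugation of the values of a character -/
private theorem lroot_star {N : ℕ} (χ : DirichletCharacter ℂ N) (a : ZMod N) :
    (starRingEnd ℂ) (χ⁻¹ a) = χ a := by
  rw [← MulChar.star_apply']
  simp

private theorem lroot_inv_ne {N : ℕ} (χ : DirichletCharacter ℂ N) (h1 : χ ≠ 1) : χ⁻¹ ≠ 1 := by
  intro h
  exact h1 (inv_eq_one.1 h)

private theorem lroot_series {N : ℕ} [NeZero N] (χ : DirichletCharacter ℂ N) (z : ℂ)
    (hz : 1 < z.re) :
    (starRingEnd ℂ) (LFunction χ⁻¹ ((starRingEnd ℂ) z)) = LFunction χ z := by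
  rw [LFunction_eq_LSeries _ (by rwa [conj_re]), LFunction_eq_LSeries _ hz, LSeries, LSeries,
    conj_tsum]
  refine tsum_congr fun n => ?_
  rw [LSeries.term_def, LSeries.term_def]
  split_ifs with hn
  · exact map_zero _
  · rw [map_div₀, lroot_star, ← conj_cpow _ _ (by rw [natCast_arg]; positivity), conj_natCast]

theorem LFunction_conj {N : ℕ} [NeZero N] (χ : DirichletCharacter ℂ N) (h1 : χ ≠ 1) (s : ℂ) :
    LFunction χ⁻¹ ((starRingEnd ℂ) s) = (starRingEnd ℂ) (LFunction χ s) := by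
  have hd : Differentiable ℂ (fun z => (starRingEnd ℂ) (LFunction χ⁻¹ ((starRingEnd ℂ) z))) :=
    fun z => differentiableAt_conj_conj_iff.mpr
      ((differentiable_LFunction (lroot_inv_ne χ h1)) _)
  have heq : (fun z => (starRingEnd ℂ) (LFunction χ⁻¹ ((starRingEnd ℂ) z))) = LFunction χ := by
    refine AnalyticOnNhd.eq_of_eventuallyEq (𝕜 := ℂ) (z₀ := 2) ?_ ?_ ?_
    · exact hd.differentiableOn.analyticOnNhd isOpen_univ
    · exact (differentiable_LFunction h1).differentiableOn.analyticOnNhd isOpen_univ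
    · exact Filter.eventuallyEq_of_mem
        ((isOpen_lt continuous_const continuous_re).mem_nhds
          (by norm_num : (2 : ℂ) ∈ {z : ℂ | (1 : ℝ) < z.re}))
        (fun z hz => lroot_series χ z hz)
  have h2 := congrFun heq s
  rw [← h2, conj_conj]

private theorem lroot_even_inv {N : ℕ} (χ : DirichletCharacter ℂ N) : χ⁻¹.Even ↔ χ.Even := by
  have h := lroot_star χ (-1)
  unfold DirichletCharacter.Even
  constructor
  · intro h2
    rw [h2, map_one] at h
    exact h.symm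
  · intro h2
    rw [h2] at h
    have h3 := congrArg (starRingEnd ℂ) h
    rwa [conj_conj, map_one] at h3

private theorem lroot_Gammaℝ (s : ℂ) :
    Gammaℝ ((starRingEnd ℂ) s) = (starRingEnd ℂ) (Gammaℝ s) := by
  have harg : (Real.pi : ℂ).arg ≠ Real.pi := by
    rw [arg_ofReal_of_nonneg Real.pi_pos.le]
    exact Real.pi_pos.ne
  have h1 : (starRingEnd ℂ) ((Real.pi : ℂ) ^ (-s / 2)) =
      (Real.pi : ℂ) ^ ((starRingEnd ℂ) (-s / 2)) := by
    have h2 := conj_cpow (Real.pi : ℂ) (-s / 2) harg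
    have h3 := cpow_conj (Real.pi : ℂ) (-s / 2) harg
    rw [conj_ofReal] at h3
    exact h3.symm
  rw [Gammaℝ_def, Gammaℝ_def, map_mul, ← Gamma_conj, h1, map_div₀, map_div₀, map_neg, map_ofNat]

theorem gammaFactor_conj {N : ℕ} (χ : DirichletCharacter ℂ N) (s : ℂ) :
    gammaFactor χ⁻¹ ((starRingEnd ℂ) s) = (starRingEnd ℂ) (gammaFactor χ s) := by
  unfold gammaFactor
  by_cases h : χ.Even
  · rw [if_pos h, if_pos ((lroot_even_inv χ).2 h), lroot_Gammaℝ]
  · rw [if_neg h, if_neg (fun h2 => h ((lroot_even_inv χ).1 h2)), ← lroot_Gammaℝ, map_add, map_one]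

private theorem lroot_gamma_ne {N : ℕ} (χ : DirichletCharacter ℂ N) (s : ℂ) (hs : 0 < s.re) :
    gammaFactor χ s ≠ 0 := by
  unfold gammaFactor
  split_ifs
  · exact Gammaℝ_ne_zero_of_re_pos hs
  · exact Gammaℝ_ne_zero_of_re_pos (by rw [add_re, one_re]; linarith)

private theorem lroot_completed {N : ℕ} [NeZero N] (χ : DirichletCharacter ℂ N) (h1 : χ ≠ 1)
    (s : ℂ) (hs : 0 < s.re) : completedLFunction χ s = LFunction χ s * gammaFactor χ s := by
  rw [LFunction_eq_completed_div_gammaFactor χ s (Or.inr (h1 ∘ level_one' _)),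
    div_mul_cancel₀ _ (lroot_gamma_ne χ s hs)]

theorem completed_conj {N : ℕ} [NeZero N] (χ : DirichletCharacter ℂ N) (h1 : χ ≠ 1) (s : ℂ) :
    completedLFunction χ⁻¹ ((starRingEnd ℂ) s) = (starRingEnd ℂ) (completedLFunction χ s) := by
  have hd : Differentiable ℂ
      (fun z => (starRingEnd ℂ) (completedLFunction χ⁻¹ ((starRingEnd ℂ) z))) :=
    fun z => differentiableAt_conj_conj_iff.mpr
      ((differentiable_completedLFunction (lroot_inv_ne χ h1)) _)
  have heq : (fun z => (starRingEnd ℂ) (completedLFunction χ⁻¹ ((starRingEnd ℂ) z))) =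
      completedLFunction χ := by
    refine AnalyticOnNhd.eq_of_eventuallyEq (𝕜 := ℂ) (z₀ := 2) ?_ ?_ ?_
    · exact hd.differentiableOn.analyticOnNhd isOpen_univ
    · exact (differentiable_completedLFunction h1).differentiableOn.analyticOnNhd isOpen_univ
    · refine Filter.eventuallyEq_of_mem
        ((isOpen_lt continuous_const continuous_re).mem_nhds
          (by norm_num : (2 : ℂ) ∈ {z : ℂ | (0 : ℝ) < z.re}))
        (fun z hz => ?_)
      have hz' : 0 < z.re := hz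
      show (starRingEnd ℂ) (completedLFunction χ⁻¹ ((starRingEnd ℂ) z)) = completedLFunction χ z
      rw [lroot_completed χ⁻¹ (lroot_inv_ne χ h1) _ (by rwa [conj_re]), lroot_completed χ h1 z hz',
        map_mul, LFunction_conj χ h1, gammaFactor_conj, conj_conj, conj_conj]
  have h2 := congrFun heq s
  rw [← h2, conj_conj]

theorem rootNumber_norm {N : ℕ} [NeZero N] (χ : DirichletCharacter ℂ N) (hχ : χ.IsPrimitive)
    (h1 : χ ≠ 1) : ‖rootNumber χ‖ = 1 := by
  have hN : 0 < N := Nat.pos_of_ne_zero (NeZero.ne N)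
  have hNc : (N : ℂ) ≠ 0 := Nat.cast_ne_zero.2 hN.ne'
  have e1 := congrArg norm (hχ.completedLFunction_one_sub 2)
  have e3 := congrArg norm (hχ.completedLFunction_one_sub (-1))
  have c1 := congrArg norm (completed_conj χ h1 (-1))
  have c2 := congrArg norm (completed_conj χ h1 2)
  rw [norm_conj, map_neg, map_one] at c1
  rw [norm_conj, map_ofNat] at c2
  have hL : completedLFunction χ 2 ≠ 0 := by
    rw [lroot_completed χ h1 2 (by norm_num)]
    refine mul_ne_zero ?_ (lroot_gamma_ne χ 2 (by norm_num))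
    exact LFunction_ne_zero_of_one_le_re χ (Or.inl h1) (by norm_num)
  have hLn : 0 < ‖completedLFunction χ 2‖ := norm_pos_iff.2 hL
  rw [norm_mul, norm_mul, c2] at e1
  rw [norm_mul, norm_mul, c1] at e3
  have f1 : (1 : ℂ) - 2 = -1 := by norm_num
  have f2 : (1 : ℂ) - (-1) = 2 := by norm_num
  have f3 : (2 : ℂ) - 1 / 2 = 3 / 2 := by norm_num
  have f4 : (-1 : ℂ) - 1 / 2 = -(3 / 2) := by norm_num
  rw [f1, f3] at e1
  rw [f2, f4, cpow_neg, norm_inv, e1] at e3
  have hA : 0 < ‖(N : ℂ) ^ (3 / 2 : ℂ)‖ := by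
    rw [norm_pos_iff]
    exact (cpow_ne_zero_iff_of_exponent_ne_zero (by norm_num)).2 hNc
  have h5 : ‖completedLFunction χ 2‖ =
      (‖rootNumber χ‖ * ‖rootNumber χ‖) * ‖completedLFunction χ 2‖ := by
    rw [show ‖(N : ℂ) ^ (3 / 2 : ℂ)‖⁻¹ * ‖rootNumber χ‖ *
        (‖(N : ℂ) ^ (3 / 2 : ℂ)‖ * ‖rootNumber χ‖ * ‖completedLFunction χ 2‖) =
        (‖(N : ℂ) ^ (3 / 2 : ℂ)‖⁻¹ * ‖(N : ℂ) ^ (3 / 2 : ℂ)‖) *
        ((‖rootNumber χ‖ * ‖rootNumber χ‖) * ‖completedLFunction χ 2‖) by ring,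
      inv_mul_cancel₀ hA.ne', one_mul] at e3
    exact e3
  have h6 : ‖rootNumber χ‖ * ‖rootNumber χ‖ = 1 := by
    have h7 : (‖rootNumber χ‖ * ‖rootNumber χ‖ - 1) * ‖completedLFunction χ 2‖ = 0 := by
      linarith
    rcases mul_eq_zero.1 h7 with h8 | h8
    · linarith
    · exact absurd h8 hLn.ne'
  nlinarith [norm_nonneg (rootNumber χ)]

end Pool.Agent.H11.SC7
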