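import Mathlib
import Pool.Agent.H11.Selberg.Defs
import Pool.Agent.H11.SC7.LRoot

/-!
# LFE: the functional equation of `L(s + iτ, χ)` in the form of the Selberg class

`a = 0` if `χ` is even, `a = 1` if odd; `mu = (a + iτ)/2`, `w = s + iτ`, `Q = √(N/π)`.
`completed Q (1/2) mu F s = Q^s Γ(s/2 + mu) L(w, χ) = Q^s π^((w+a)/2) Λ(w, χ)` for `Re s > 0`
(`Gammaℝ z = π^(-z/2) Γ(z/2)`, `gammaFactor χ w = Gammaℝ (w + a)`, `LFunction_eq_completed_div_gammaFactor`,
`Λ = completedLFunction`).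
`Λ(w, χ) = N^(1/2 - w) ε(χ) Λ(1 - w, χ⁻¹)` (`IsPrimitive.completedLFunction_one_sub` at `1 - w`).
`conj (completed Q (1/2) mu F (1 - conj s)) = Q^(1-s) π^((1-w+a)/2) Λ(1 - w, χ⁻¹)` (`completed_conj`;
`conj (1 - conj s + iτ) = 1 - s - iτ = 1 - w`; `Re (1 - conj s) > 0`).
So the equation holds with `ε = Q^(2s-1) π^(w-1/2) N^(1/2-w) ε(χ) = ε(χ) (π/N)^(iτ)` (`Q² = N/π`), of norm one
(`rootNumber_norm`).  Write all real powers as `exp(· log)`.
-/

set_option autoImplicit false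

namespace Pool.Agent.H11.SC7

open Complex DirichletCharacter Pool.Agent.H11.Selberg

private theorem lfe_cpow {x : ℝ} (hx : 0 < x) (z : ℂ) :
    (x : ℂ) ^ z = exp ((Real.log x : ℂ) * z) := by
  rw [cpow_def_of_ne_zero (by exact_mod_cast hx.ne'), ofReal_log hx.le]

private theorem lfe_sqrt {N : ℕ} (hN : 0 < N) :
    Real.log (Real.sqrt (N / Real.pi)) = (Real.log N - Real.log Real.pi) / 2 := by
  have h : (0 : ℝ) < N := by exact_mod_cast hN
  rw [Real.log_sqrt (by positivity), Real.log_div h.ne' Real.pi_ne_zero]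

private theorem lfe_gammaR (z : ℂ) : Complex.Gamma (z / 2) =
    exp ((Real.log Real.pi : ℂ) * (z / 2)) * Gammaℝ z := by
  rw [Gammaℝ_def, lfe_cpow Real.pi_pos, ← mul_assoc, ← exp_add]
  have : (Real.log Real.pi : ℂ) * (z / 2) + (Real.log Real.pi : ℂ) * (-z / 2) = 0 := by ring
  rw [this, exp_zero, one_mul]

private theorem lfe_completed {N : ℕ} [NeZero N] (χ : DirichletCharacter ℂ N) (τ a : ℝ)
    (ha0 : 0 ≤ a)
    (ha : ∀ w : ℂ, gammaFactor χ w = Gammaℝ (w + a)) (s : ℂ) (hs : 0 < s.re) :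
    completed (Real.sqrt (N / Real.pi)) (fun _ : Fin 1 => (1 / 2 : ℝ))
      (fun _ : Fin 1 => ((a : ℂ) + τ * I) / 2)
          (fun s => LFunction χ (s + τ * I)) s =
    exp (((Real.log N - Real.log Real.pi : ℝ) : ℂ) / 2 * s +
      (Real.log Real.pi : ℂ) * ((s + τ * I + a) / 2)) * completedLFunction χ (s + τ * I) := by
  have hN : 0 < N := Nat.pos_of_ne_zero (NeZero.ne N)
  have hN' : (0 : ℝ) < N := by exact_mod_cast hN
  have hw : s + τ * I ≠ 0 := by
    intro h
    have : (s + τ * I).re = 0 := by rw [h]; rfl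
    simp at this
    linarith
  have hg : gammaFactor χ (s + τ * I) ≠ 0 := by
    rw [ha]
    apply Gammaℝ_ne_zero_of_re_pos
    simp
    linarith
  unfold completed
  rw [Fin.prod_univ_one]
  have e1 : (((1 / 2 : ℝ) : ℂ) * s + ((a : ℂ) + τ * I) / 2) = (s + τ * I + a) / 2 := by
    push_cast
    ring
  simp only [e1]
  rw [lfe_gammaR, ← ha, LFunction_eq_completed_div_gammaFactor χ _ (Or.inl hw),
    lfe_cpow (Real.sqrt_pos.2 (by positivity)), lfe_sqrt hN]
  rw [exp_add]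
  push_cast
  field_simp

theorem L_functional {N : ℕ} [NeZero N] (χ : DirichletCharacter ℂ N) (hχ : χ.IsPrimitive)
    (h1 : χ ≠ 1) (τ : ℝ) : ∃ mu ε : ℂ, 0 ≤ mu.re ∧ ‖ε‖ = 1 ∧
      ∀ s : ℂ, 0 < s.re → s.re < 1 →
        completed (Real.sqrt (N / Real.pi)) (fun _ : Fin 1 => (1 / 2 : ℝ)) (fun _ : Fin 1 => mu)
          (fun s => LFunction χ (s + τ * I)) s =
        ε * (starRingEnd ℂ) (completed (Real.sqrt (N / Real.pi)) (fun _ : Fin 1 => (1 / 2 : ℝ))
          (fun _ : Fin 1 => mu) (fun s => LFunction χ (s + τ * I)) (1 - (starRingEnd ℂ) s)) := by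
  have hN : 0 < N := Nat.pos_of_ne_zero (NeZero.ne N)
  have hN' : (0 : ℝ) < N := by exact_mod_cast hN
  obtain ⟨a, ha0, ha⟩ : ∃ a : ℝ, 0 ≤ a ∧ ∀ w : ℂ, gammaFactor χ w = Gammaℝ (w + a) := by
    rcases χ.even_or_odd with h | h
    · exact ⟨0, le_refl _, fun w => by rw [h.gammaFactor_def]; simp⟩
    · exact ⟨1, zero_le_one, fun w => by rw [h.gammaFactor_def]; simp⟩
  refine ⟨((a : ℂ) + τ * I) / 2, exp (((Real.log Real.pi - Real.log N) * τ : ℝ) * I) * rootNumber χ,
    ?_, ?_, ?_⟩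
  · simp
    linarith
  · rw [norm_mul, norm_exp_ofReal_mul_I, rootNumber_norm χ hχ h1, one_mul]
  intro s hs0 hs1
  have hs' : 0 < (1 - (starRingEnd ℂ) s).re := by
    rw [sub_re, one_re, conj_re]
    linarith
  rw [lfe_completed χ τ a ha0 ha s hs0, lfe_completed χ τ a ha0 ha _ hs']
  have hfe := hχ.completedLFunction_one_sub (1 - (s + τ * I))
  rw [sub_sub_cancel] at hfe
  rw [hfe, map_mul, ← completed_conj χ h1, ← exp_conj]
  have e2 : (starRingEnd ℂ) (1 - (starRingEnd ℂ) s + τ * I) = 1 - (s + τ * I) := by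
    simp only [map_add, map_sub, map_one, map_mul, conj_conj, conj_I, conj_ofReal]
    ring
  rw [e2]
  have e3 : (N : ℂ) ^ (1 - (s + τ * I) - 1 / 2) =
      exp ((Real.log N : ℂ) * (1 - (s + τ * I) - 1 / 2)) := by
    rw [← lfe_cpow hN']
    norm_num
  rw [e3]
  have e4 : (starRingEnd ℂ) (((Real.log N - Real.log Real.pi : ℝ) : ℂ) / 2 * (1 - (starRingEnd ℂ) s) +
      (Real.log Real.pi : ℂ) * ((1 - (starRingEnd ℂ) s + τ * I + a) / 2)) =
      ((Real.log N - Real.log Real.pi : ℝ) : ℂ) / 2 * (1 - s) +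
      (Real.log Real.pi : ℂ) * ((1 - s - τ * I + a) / 2) := by
    simp only [map_add, map_sub, map_one, map_mul, map_div₀, conj_conj, conj_I, conj_ofReal,
      map_ofNat]
    ring
  rw [e4]
  have e5 : exp (((Real.log N - Real.log Real.pi : ℝ) : ℂ) / 2 * s +
      (Real.log Real.pi : ℂ) * ((s + τ * I + a) / 2)) *
      exp ((Real.log N : ℂ) * (1 - (s + τ * I) - 1 / 2)) =
      exp (((Real.log Real.pi - Real.log N) * τ : ℝ) * I) *
      exp (((Real.log N - Real.log Real.pi : ℝ) : ℂ) / 2 * (1 - s) +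
      (Real.log Real.pi : ℂ) * ((1 - s - τ * I + a) / 2)) := by
    rw [← exp_add, ← exp_add]
    congr 1
    push_cast
    ring
  calc exp (((Real.log N - Real.log Real.pi : ℝ) : ℂ) / 2 * s +
      (Real.log Real.pi : ℂ) * ((s + τ * I + a) / 2)) *
      (exp ((Real.log N : ℂ) * (1 - (s + τ * I) - 1 / 2)) * rootNumber χ *
        completedLFunction χ⁻¹ (1 - (s + τ * I)))
      = (exp (((Real.log N - Real.log Real.pi : ℝ) : ℂ) / 2 * s +
      (Real.log Real.pi : ℂ) * ((s + τ * I + a) / 2)) *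
      exp ((Real.log N : ℂ) * (1 - (s + τ * I) - 1 / 2))) * (rootNumber χ *
        completedLFunction χ⁻¹ (1 - (s + τ * I))) := by ring
    _ = _ := by
      rw [e5]
      ring

private theorem lfe_zeta (s : ℂ) (h0 : 0 < s.re) :
    completed (Real.sqrt (1 / Real.pi)) (fun _ : Fin 1 => (1 / 2 : ℝ)) (fun _ : Fin 1 => (0 : ℂ))
      riemannZeta s = completedRiemannZeta s := by
  have hs : s ≠ 0 := by
    intro h
    rw [h] at h0
    simp at h0
  unfold completed
  rw [Fin.prod_univ_one]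
  have e1 : (((1 / 2 : ℝ) : ℂ) * s + 0) = s / 2 := by
    push_cast
    ring
  simp only [e1]
  have hl : Real.log (Real.sqrt (1 / Real.pi)) = - Real.log Real.pi / 2 := by
    rw [Real.log_sqrt (by positivity), Real.log_div one_ne_zero Real.pi_ne_zero, Real.log_one]
    ring
  rw [lfe_gammaR, riemannZeta_def_of_ne_zero hs, lfe_cpow (Real.sqrt_pos.2 (by positivity)), hl,
    ← mul_assoc, ← exp_add]
  have e2 : ((-Real.log Real.pi / 2 : ℝ) : ℂ) * s + (Real.log Real.pi : ℂ) * (s / 2) = 0 := by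
    push_cast
    ring
  rw [e2, exp_zero, one_mul]
  have hg : Gammaℝ s ≠ 0 := Gammaℝ_ne_zero_of_re_pos h0
  field_simp

private theorem lfe_gammaR_conj (s : ℂ) :
    Gammaℝ ((starRingEnd ℂ) s) = (starRingEnd ℂ) (Gammaℝ s) := by
  rw [Gammaℝ_def, Gammaℝ_def, lfe_cpow Real.pi_pos, lfe_cpow Real.pi_pos, map_mul, ← exp_conj,
    ← Complex.Gamma_conj]
  simp only [map_mul, map_neg, map_div₀, map_ofNat, conj_ofReal]

/-- the functional equation of `ζ` (`completedRiemannZeta_one_sub`, `riemannZeta_conj`,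
`riemannZeta_def_of_ne_zero`, `Gammaℝ_def`; `Q = π^(-1/2)`, `ε = 1`) -/
theorem zeta_functional (s : ℂ) (h0 : 0 < s.re) (h1 : s.re < 1) :
    completed (Real.sqrt (1 / Real.pi)) (fun _ : Fin 1 => (1 / 2 : ℝ)) (fun _ : Fin 1 => (0 : ℂ))
      riemannZeta s =
    1 * (starRingEnd ℂ) (completed (Real.sqrt (1 / Real.pi)) (fun _ : Fin 1 => (1 / 2 : ℝ))
      (fun _ : Fin 1 => (0 : ℂ)) riemannZeta (1 - (starRingEnd ℂ) s)) := by
  have hs' : 0 < (1 - (starRingEnd ℂ) s).re := by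
    rw [sub_re, one_re, conj_re]
    linarith
  have hs : s ≠ 0 := by
    intro h
    rw [h] at h0
    simp at h0
  have hsc : (starRingEnd ℂ) s ≠ 0 := by
    intro h
    exact hs (by simpa using h)
  have hg : ∀ z : ℂ, 0 < z.re → completedRiemannZeta z = riemannZeta z * Gammaℝ z := by
    intro z hz
    have hz0 : z ≠ 0 := by
      intro h
      rw [h] at hz
      simp at hz
    rw [riemannZeta_def_of_ne_zero hz0]
    have := Gammaℝ_ne_zero_of_re_pos hz
    field_simp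
  rw [one_mul, lfe_zeta s h0, lfe_zeta _ hs', completedRiemannZeta_one_sub, hg s h0,
    hg ((starRingEnd ℂ) s) (by rw [conj_re]; exact h0), map_mul, riemannZeta_conj,
    lfe_gammaR_conj, conj_conj, conj_conj]

end Pool.Agent.H11.SC7
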