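import Mathlib
import Pool.Agent.H11.SC4.TwoC
import Pool.Agent.H11.SC7.EulL

/-!
# FACTOR: from the coefficients at prime powers to `F = ζ(s) L(s + iτ, χ)`

`g n = χ(n) n^(-iτ)` (`n ≥ 1`).  `a` is multiplicative on coprime positive integers: as in `inv_data` of
`Pool/Agent/H39/Pol/MainP.lean` (`hS.euler`, `conv_rec`, `twoc_mul` of `H11/SC4/TwoC.lean`).  Let
`c = LSeries.convolution 1 g`, `c n = ∑_{d | n} g(d)` (`n ≥ 1`).  `c` is multiplicative on coprime positive integers
(`Nat.Coprime.sum_divisors_mul_of_isMultiplicative`-type lemma, or define the arithmetic functions and use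
`ArithmeticFunction.IsMultiplicative.mul`), and `c(p^k) = ∑_{i ≤ k} g(p)^i = a(p^k)` (`Nat.divisors_prime_pow`,
`g (p^i) = g(p)^i`).  So `a n = c n` for all `n ≥ 1` (`Nat.recOnPosPrimePosCoprime` or
`ArithmeticFunction.IsMultiplicative.eq_iff_eq_on_prime_powers`), `LSeries_congr`, `LSeries_convolution'`:
`F s = LSeries a s = LSeries c s = LSeries 1 s * LSeries g s = ζ(s) L(s + iτ, χ)` (`LSeries_one_eq_riemannZeta`, `twist_eq`,
`twist_summable`).
-/

set_option autoImplicit false

namespace Pool.Agent.H11.SC7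

open Complex Pool.Agent.H11.Selberg Pool.Agent.H11.SC

private noncomputable def factorAF (a : ℕ → ℂ) : ArithmeticFunction ℂ :=
  ⟨fun n => if n = 0 then 0 else a n, by simp⟩

private theorem factorAF_apply (a : ℕ → ℂ) {n : ℕ} (hn : n ≠ 0) : factorAF a n = a n := by
  show (if n = 0 then 0 else a n) = a n
  rw [if_neg hn]

private theorem factorAF_mult (a : ℕ → ℂ) (h1 : a 1 = 1)
    (hm : ∀ m n : ℕ, m * n ≠ 0 → Nat.Coprime m n → a (m * n) = a m * a n) :
    (factorAF a).IsMultiplicative := by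
  refine ⟨by rw [factorAF_apply a one_ne_zero, h1], ?_⟩
  intro m n hmn
  rcases Nat.eq_zero_or_pos m with rfl | hm0
  · simp
  rcases Nat.eq_zero_or_pos n with rfl | hn0
  · simp
  have h0 : m * n ≠ 0 := by positivity
  rw [factorAF_apply a h0, factorAF_apply a hm0.ne', factorAF_apply a hn0.ne', hm m n h0 hmn]

theorem factor_zeta_L (a : ℕ → ℂ) (F : ℂ → ℂ) (hS : IsSelberg a F) {N : ℕ} [NeZero N]
    (χ : DirichletCharacter ℂ N) (τ : ℝ)
    (hc : ∀ p : ℕ, p.Prime → ∀ k : ℕ, a (p ^ k) = ∑ i ∈ Finset.range (k + 1),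
      (χ (p : ZMod N) * (p : ℂ) ^ (-((τ : ℂ) * I))) ^ i) :
    ∀ s : ℂ, 1 < s.re → F s = riemannZeta s * χ.LFunction (s + τ * I) := by
  intro s hs
  obtain ⟨b0, θ0, C0, hθ0, hb0, hE⟩ := hS.euler
  have hE' : ∀ s : ℂ, 1 < s.re → HasProd
      (fun p : Nat.Primes => Complex.exp (∑' l : ℕ, b0 ((p : ℕ) ^ (l + 1)) *
        ((p : ℕ) : ℂ) ^ (-((l : ℂ) + 1) * s))) (LSeries a s) := fun s hs => by
    rw [← hS.eq_LSeries s hs]; exact hE s hs
  have hrec := conv_rec a hS.summable b0 θ0 C0 hθ0 hb0 hE'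
  have hmul0 := twoc_mul a F hS b0 hrec
  obtain ⟨g, hg⟩ : ∃ g : ℕ → ℂ, g = fun n : ℕ => χ (n : ZMod N) * (n : ℂ) ^ (-((τ : ℂ) * I)) :=
    ⟨_, rfl⟩
  have hg1 : g 1 = 1 := by
    rw [hg]
    simp
  have hgm : ∀ m n : ℕ, g (m * n) = g m * g n := by
    intro m n
    rw [hg]
    simp only [Nat.cast_mul, map_mul]
    rw [natCast_mul_natCast_cpow]
    ring
  have hgp : ∀ p i : ℕ, g (p ^ i) = (g p) ^ i := by
    intro p i
    induction i with
    | zero => rw [pow_zero, pow_zero, hg1]
    | succ i ih => rw [pow_succ, hgm, ih, pow_succ]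
  have hA := factorAF_mult a hS.one hmul0
  have hG := factorAF_mult g hg1 (fun m n _ _ => hgm m n)
  have hZ : ((ArithmeticFunction.zeta : ArithmeticFunction ℕ) : ArithmeticFunction ℂ).IsMultiplicative :=
    ArithmeticFunction.isMultiplicative_zeta.natCast
  have hAG : factorAF a = ((ArithmeticFunction.zeta : ArithmeticFunction ℕ) : ArithmeticFunction ℂ) *
      factorAF g := by
    rw [ArithmeticFunction.IsMultiplicative.eq_iff_eq_on_prime_powers _ hA _ (hZ.mul hG)]
    intro p k hp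
    rw [ArithmeticFunction.coe_zeta_mul_apply, Nat.sum_divisors_prime_pow hp,
      factorAF_apply a (pow_ne_zero _ hp.ne_zero), hc p hp k]
    apply Finset.sum_congr rfl
    intro i _
    rw [factorAF_apply g (pow_ne_zero _ hp.ne_zero), hgp, hg]
  have hLa : LSeries a s = LSeries (fun n => factorAF a n) s :=
    LSeries_congr (fun {n} hn => (factorAF_apply a hn).symm) s
  have hLg : LSeries g s = LSeries (fun n => factorAF g n) s :=
    LSeries_congr (fun {n} hn => (factorAF_apply g hn).symm) s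
  have hsg : LSeriesSummable g s := by
    rw [hg]
    exact twist_summable χ τ s hs
  have hsg' : LSeriesSummable (fun n => factorAF g n) s :=
    (LSeriesSummable_congr s (fun {n} hn => (factorAF_apply g hn).symm)).1 hsg
  have hsz : LSeriesSummable (fun n =>
      ((ArithmeticFunction.zeta : ArithmeticFunction ℕ) : ArithmeticFunction ℂ) n) s :=
    ArithmeticFunction.LSeriesSummable_zeta_iff.2 hs
  have hLz : LSeries (fun n =>
      ((ArithmeticFunction.zeta : ArithmeticFunction ℕ) : ArithmeticFunction ℂ) n) s =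
      riemannZeta s := ArithmeticFunction.LSeries_zeta_eq_riemannZeta hs
  rw [hS.eq_LSeries s hs, hLa, hAG, ArithmeticFunction.LSeries_mul' hsz hsg', hLz, ← hLg,
    twist_eq χ τ s hs, hg]

end Pool.Agent.H11.SC7
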