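import Mathlib
import Pool.Agent.H92.SW.Integral
import Pool.Agent.H11.SC7.GamB

/-!
# LORD: `L(s + iτ, χ)` is of finite order

`Re s ≥ 1/2`: `norm_LFunction_le` of `H92/SW/Integral.lean` with `δ = 1/2`: `‖L(s, χ)‖ ≤ 2 N ‖s‖`.
`Re w ≤ 1/2`, `s = 1 - w`: `IsPrimitive.completedLFunction_one_sub`, `LFunction_eq_completed_div_gammaFactor` (for `χ` at `w` and for
`χ⁻¹` at `s`, where the Gamma factor is `≠ 0`):
`L(w, χ) = N^(s-1/2) ε(χ) L(s, χ⁻¹) gammaFactor χ⁻¹ s / gammaFactor χ w`, and the quotient is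
`Gammaℝ s / Gammaℝ (1-s) = Gammaℂ s cos(πs/2)` (even) or `Gammaℝ (s+1) / Gammaℝ (2-s) = Gammaℂ s sin(πs/2)` (odd)
(Mathlib `NumberTheory/../Gamma/Deligne.lean`: `Gammaℝ_div_Gammaℝ_one_sub`, `Gammaℝ_add_one_div_Gammaℝ_two_sub`; the
hypotheses hold since `Re s ≥ 1/2`).  `Gammaℂ s = 2 (2π)^(-s) Γ(s)`, `gamma_bound`,
`‖cos(πs/2)‖, ‖sin(πs/2)‖ ≤ exp(2‖s‖)`, `‖N^(s-1/2)‖ ≤ exp(‖s‖ log N)` (`N ≥ 1`).  Everything is
`≤ C exp(‖w‖^3)`.  At the end `‖s + iτ‖^3 ≤ ‖s‖^4 + C(τ)`; take `A = 4`.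
-/

set_option autoImplicit false

namespace Pool.Agent.H11.SC7

open Complex DirichletCharacter

private lemma lo_norm_cos (z : ℂ) : ‖Complex.cos z‖ ≤ Real.exp ‖z‖ := by
  have h1 : ‖Complex.exp (z * I)‖ ≤ Real.exp ‖z‖ := by
    refine (Complex.norm_exp_le_exp_norm _).trans ?_
    rw [norm_mul, Complex.norm_I, mul_one]
  have h2 : ‖Complex.exp (-z * I)‖ ≤ Real.exp ‖z‖ := by
    refine (Complex.norm_exp_le_exp_norm _).trans ?_
    rw [norm_mul, Complex.norm_I, mul_one, norm_neg]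
  have h3 : Complex.cos z = (Complex.exp (z * I) + Complex.exp (-z * I)) / 2 := rfl
  rw [h3, norm_div]
  have h4 := norm_add_le (Complex.exp (z * I)) (Complex.exp (-z * I))
  have h5 : ‖(2 : ℂ)‖ = 2 := by norm_num
  rw [h5, div_le_iff₀ (by norm_num)]
  linarith

private lemma lo_norm_sin (z : ℂ) : ‖Complex.sin z‖ ≤ Real.exp ‖z‖ := by
  have h1 : ‖Complex.exp (z * I)‖ ≤ Real.exp ‖z‖ := by
    refine (Complex.norm_exp_le_exp_norm _).trans ?_
    rw [norm_mul, Complex.norm_I, mul_one]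
  have h2 : ‖Complex.exp (-z * I)‖ ≤ Real.exp ‖z‖ := by
    refine (Complex.norm_exp_le_exp_norm _).trans ?_
    rw [norm_mul, Complex.norm_I, mul_one, norm_neg]
  have h3 : Complex.sin z = (Complex.exp (-z * I) - Complex.exp (z * I)) * I / 2 := rfl
  rw [h3, norm_div, norm_mul, Complex.norm_I, mul_one]
  have h4 := norm_sub_le (Complex.exp (-z * I)) (Complex.exp (z * I))
  have h5 : ‖(2 : ℂ)‖ = 2 := by norm_num
  rw [h5, div_le_iff₀ (by norm_num)]
  linarith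

private lemma lo_fe {N : ℕ} [NeZero N] (χ : DirichletCharacter ℂ N) (hχ : χ.IsPrimitive)
    (h1 : χ ≠ 1) {s : ℂ} (hs : 1 / 2 ≤ s.re) :
    ∃ t : ℂ, ‖t‖ ≤ Real.exp (2 * ‖s‖) ∧
      LFunction χ (1 - s) = (N : ℂ) ^ (s - 1 / 2) * rootNumber χ * LFunction χ⁻¹ s *
        (Gammaℂ s * t) := by
  have hN : N ≠ 1 := fun h => h1 (by subst h; exact level_one χ)
  have hs0 : 0 < s.re := by linarith
  have hneg : ∀ n : ℕ, s ≠ -n := by
    intro n h
    rw [h] at hs0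
    simp only [neg_re, natCast_re] at hs0
    have : (0 : ℝ) ≤ n := Nat.cast_nonneg n
    linarith
  have hz : ‖(Real.pi : ℂ) * s / 2‖ ≤ 2 * ‖s‖ := by
    rw [norm_div, norm_mul, Complex.norm_real, Real.norm_eq_abs, abs_of_pos Real.pi_pos]
    have h5 : ‖(2 : ℂ)‖ = 2 := by norm_num
    rw [h5]
    have h6 := Real.pi_lt_four
    have h7 := norm_nonneg s
    nlinarith
  have ha := LFunction_eq_completed_div_gammaFactor χ (1 - s) (Or.inr hN)
  have hb := LFunction_eq_completed_div_gammaFactor χ⁻¹ s (Or.inr hN)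
  have hc := hχ.completedLFunction_one_sub s
  rcases χ.even_or_odd with he | ho
  · have he' : (χ⁻¹).Even := by
      unfold DirichletCharacter.Even at he ⊢
      rw [MulChar.inv_apply_eq_inv', he, inv_one]
    rw [he.gammaFactor_def] at ha
    rw [he'.gammaFactor_def] at hb
    have hne : Gammaℝ s ≠ 0 := Gammaℝ_ne_zero_of_re_pos hs0
    have hd : completedLFunction χ⁻¹ s = LFunction χ⁻¹ s * Gammaℝ s := by
      rw [hb, div_mul_cancel₀ _ hne]
    refine ⟨Complex.cos (Real.pi * s / 2), (lo_norm_cos _).trans (Real.exp_le_exp.mpr hz), ?_⟩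
    rw [ha, hc, hd, div_eq_mul_inv, inv_Gammaℝ_one_sub hneg]
    field_simp
  · have ho' : (χ⁻¹).Odd := by
      unfold DirichletCharacter.Odd at ho ⊢
      rw [MulChar.inv_apply_eq_inv', ho, inv_neg, inv_one]
    rw [ho.gammaFactor_def] at ha
    rw [ho'.gammaFactor_def] at hb
    have hne : Gammaℝ (s + 1) ≠ 0 := Gammaℝ_ne_zero_of_re_pos (by
      rw [add_re, one_re]; linarith)
    have hd : completedLFunction χ⁻¹ s = LFunction χ⁻¹ s * Gammaℝ (s + 1) := by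
      rw [hb, div_mul_cancel₀ _ hne]
    refine ⟨Complex.sin (Real.pi * s / 2), (lo_norm_sin _).trans (Real.exp_le_exp.mpr hz), ?_⟩
    have he2 : 1 - s + 1 = 2 - s := by ring
    rw [ha, hc, hd, div_eq_mul_inv, he2, inv_Gammaℝ_two_sub hneg]
    field_simp

private lemma lo_half {N : ℕ} [NeZero N] {χ : DirichletCharacter ℂ N} (hχ : χ ≠ 1)
    {s : ℂ} (hs : 1 / 2 ≤ s.re) : ‖χ.LFunction s‖ ≤ (2 * N) * Real.exp ‖s‖ := by
  have h := Pool.Agent.H92.SW.norm_LFunction_le hχ (δ := 1 / 2) (by norm_num) (by norm_num) (s := s)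
    (by linarith)
  have e : (N : ℝ) ^ (2 * (1 / 2) : ℝ) / (1 / 2) = 2 * N := by
    rw [show (2 * (1 / 2) : ℝ) = 1 by norm_num, Real.rpow_one]
    ring
  rw [e] at h
  have h2 : ‖s‖ ≤ Real.exp ‖s‖ := by
    have := Real.add_one_le_exp ‖s‖
    linarith
  calc ‖χ.LFunction s‖ ≤ ‖s‖ * (2 * N) := h
    _ ≤ Real.exp ‖s‖ * (2 * N) := by gcongr
    _ = (2 * N) * Real.exp ‖s‖ := mul_comm _ _

private lemma lo_GammaC {C : ℝ} (hC : ∀ s : ℂ, 1 / 2 ≤ s.re →
    ‖Complex.Gamma s‖ ≤ C * Real.exp (‖s‖ ^ 2)) {s : ℂ} (hs : 1 / 2 ≤ s.re) :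
    ‖Gammaℂ s‖ ≤ 2 * (C * Real.exp (‖s‖ ^ 2)) := by
  rw [Gammaℂ_def, norm_mul, norm_mul]
  have h1 : (2 * (Real.pi : ℂ)) = ((2 * Real.pi : ℝ) : ℂ) := by push_cast; rfl
  have h0 : (0 : ℝ) < 2 * Real.pi := by positivity
  rw [h1, norm_cpow_eq_rpow_re_of_pos h0]
  have h2 : (2 * Real.pi) ^ (-s).re ≤ 1 := by
    refine Real.rpow_le_one_of_one_le_of_nonpos ?_ ?_
    · have := Real.pi_gt_three
      linarith
    · rw [neg_re]
      linarith
  have h3 : ‖(2 : ℂ)‖ = 2 := by norm_num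
  rw [h3]
  have h4 := hC s hs
  have h5 : 0 ≤ (2 * Real.pi) ^ (-s).re := by positivity
  calc 2 * (2 * Real.pi) ^ (-s).re * ‖Complex.Gamma s‖ ≤ 2 * 1 * (C * Real.exp (‖s‖ ^ 2)) := by
        gcongr
    _ = 2 * (C * Real.exp (‖s‖ ^ 2)) := by ring

theorem L_order {N : ℕ} [NeZero N] (χ : DirichletCharacter ℂ N) (hχ : χ.IsPrimitive)
    (h1 : χ ≠ 1) (τ : ℝ) : ∃ A C : ℝ, ∀ s : ℂ,
      ‖LFunction χ (s + τ * I)‖ ≤ C * Real.exp (‖s‖ ^ A) := by
  obtain ⟨C, hC0, hC⟩ := gamma_bound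
  have hinv : χ⁻¹ ≠ 1 := fun h => h1 (inv_eq_one.mp h)
  have hNpos : (1 : ℝ) ≤ N := by
    exact_mod_cast Nat.one_le_iff_ne_zero.mpr (NeZero.ne N)
  have hlog : 0 ≤ Real.log N := Real.log_nonneg hNpos
  set a : ℝ := Real.log N + 3 with ha
  set b : ℝ := 1 + |τ| with hb
  set C0 : ℝ := 2 * N + ‖rootNumber χ‖ * (2 * N) * (2 * C) with hC0'
  have hC0p : 0 ≤ C0 := by positivity
  have ha3 : 3 ≤ a := by linarith
  have hbp : 0 ≤ b := by positivity
  refine ⟨4, C0 * Real.exp (a ^ 2 + 4 * b ^ 2 + 4), fun s => ?_⟩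
  have hx0 : 0 ≤ b + ‖s‖ := by positivity
  set x : ℝ := b + ‖s‖ with hx
  -- main bound
  have hmain : ‖LFunction χ (s + τ * I)‖ ≤ C0 * Real.exp (a * x + x ^ 2) := by
    set w : ℂ := s + τ * I with hw
    have hτ : ‖(τ : ℂ) * I‖ = |τ| := by
      rw [norm_mul, Complex.norm_I, mul_one, Complex.norm_real, Real.norm_eq_abs]
    have hwn : ‖w‖ ≤ ‖s‖ + |τ| := by
      rw [hw]
      refine (norm_add_le _ _).trans ?_
      rw [hτ]
    rcases le_or_gt (1 / 2) w.re with hr | hr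
    · have h2 := lo_half h1 hr
      have h3 : ‖w‖ ≤ a * x + x ^ 2 := by
        have : ‖w‖ ≤ x := by
          rw [hx, hb]; linarith
        nlinarith
      calc ‖LFunction χ w‖ ≤ (2 * N) * Real.exp ‖w‖ := h2
        _ ≤ C0 * Real.exp (a * x + x ^ 2) := by
          refine mul_le_mul ?_ (Real.exp_le_exp.mpr h3) (Real.exp_pos _).le hC0p
          rw [hC0']
          have : 0 ≤ ‖rootNumber χ‖ * (2 * N) * (2 * C) := by positivity
          linarith
    · set z : ℂ := 1 - w with hz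
      have hzr : 1 / 2 ≤ z.re := by
        rw [hz, sub_re, one_re]
        linarith
      have hzn : ‖z‖ ≤ x := by
        rw [hz]
        refine (norm_sub_le _ _).trans ?_
        rw [norm_one, hx, hb]
        linarith
      have hwz : w = 1 - z := by rw [hz]; ring
      obtain ⟨t, ht, hfe⟩ := lo_fe χ hχ h1 hzr
      rw [hwz, hfe, norm_mul, norm_mul, norm_mul, norm_mul]
      have e1 : ‖(N : ℂ) ^ (z - 1 / 2)‖ ≤ Real.exp (Real.log N * x) := by
        rw [norm_natCast_cpow_of_pos (Nat.pos_of_ne_zero (NeZero.ne N)),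
          Real.rpow_def_of_pos (by linarith)]
        refine Real.exp_le_exp.mpr (mul_le_mul_of_nonneg_left ?_ hlog)
        have e2 : (z - 1 / 2).re = z.re - 1 / 2 := by
          rw [sub_re]
          norm_num
        rw [e2]
        have := Complex.re_le_norm z
        linarith
      have e3 : ‖LFunction χ⁻¹ z‖ ≤ (2 * N) * Real.exp x :=
        (lo_half hinv hzr).trans (by
          have := Real.exp_le_exp.mpr hzn
          gcongr)
      have e4 : ‖Gammaℂ z‖ ≤ 2 * (C * Real.exp (x ^ 2)) := by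
        refine (lo_GammaC hC hzr).trans ?_
        have h5 : Real.exp (‖z‖ ^ 2) ≤ Real.exp (x ^ 2) :=
          Real.exp_le_exp.mpr (pow_le_pow_left₀ (norm_nonneg _) hzn 2)
        gcongr
      have e5 : ‖t‖ ≤ Real.exp (2 * x) :=
        ht.trans (Real.exp_le_exp.mpr (by linarith))
      calc ‖(N : ℂ) ^ (z - 1 / 2)‖ * ‖rootNumber χ‖ * ‖LFunction χ⁻¹ z‖ * (‖Gammaℂ z‖ * ‖t‖)
          ≤ Real.exp (Real.log N * x) * ‖rootNumber χ‖ * ((2 * N) * Real.exp x) *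
            ((2 * (C * Real.exp (x ^ 2))) * Real.exp (2 * x)) := by gcongr
        _ = (‖rootNumber χ‖ * (2 * N) * (2 * C)) * (Real.exp (Real.log N * x) * Real.exp x *
            Real.exp (x ^ 2) * Real.exp (2 * x)) := by ring
        _ = (‖rootNumber χ‖ * (2 * N) * (2 * C)) * Real.exp (a * x + x ^ 2) := by
            rw [← Real.exp_add, ← Real.exp_add, ← Real.exp_add]
            congr 2
            rw [ha]
            ring
        _ ≤ C0 * Real.exp (a * x + x ^ 2) := by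
            refine mul_le_mul_of_nonneg_right ?_ (Real.exp_pos _).le
            rw [hC0']
            have : (0 : ℝ) ≤ 2 * N := by positivity
            linarith
  refine hmain.trans ?_
  rw [mul_assoc, ← Real.exp_add]
  refine mul_le_mul_of_nonneg_left (Real.exp_le_exp.mpr ?_) hC0p
  have hp : ‖s‖ ^ (4 : ℝ) = ‖s‖ ^ 4 := by
    rw [← Real.rpow_natCast]
    norm_num
  rw [hp]
  have h6 : a * x + x ^ 2 ≤ a ^ 2 + 2 * x ^ 2 := by nlinarith [sq_nonneg (a - x)]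
  have h7 : x ^ 2 ≤ 2 * b ^ 2 + 2 * ‖s‖ ^ 2 := by
    rw [hx]
    nlinarith [sq_nonneg (b - ‖s‖)]
  have h8 : 4 * ‖s‖ ^ 2 ≤ ‖s‖ ^ 4 + 4 := by nlinarith [sq_nonneg (‖s‖ ^ 2 - 2)]
  linarith

end Pool.Agent.H11.SC7
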