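import Mathlib
import Pool.Agent.H11.SC7.ZetaO
import Pool.Agent.H11.SC7.LFE
import Pool.Agent.H11.SC7.LOrd
import Pool.Agent.H11.SC7.Factor

/-!
# ASM: `ζ(s)` and `L(s + iτ, χ)` are elements of the Selberg class (assembly)
-/

set_option autoImplicit false

namespace Pool.Agent.H11.SC7

open Complex Pool.Agent.H11.Selberg

theorem isSelberg_zeta : IsSelberg (fun _ => 1) riemannZeta := by
  have h1 : ∀ s : ℂ, 1 < s.re → riemannZeta s = LSeries (fun _ => 1) s := fun s hs =>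
    (LSeries_one_eq_riemannZeta hs).symm
  obtain ⟨b, hb, hE⟩ := euler_L (1 : DirichletCharacter ℂ 1) 0
  have hfun : ∀ s : ℂ, LSeries (fun n : ℕ => (1 : DirichletCharacter ℂ 1) (n : ZMod 1) *
      (n : ℂ) ^ (-(((0 : ℝ) : ℂ) * I))) s = LSeries (fun _ => 1) s := by
    intro s
    refine LSeries_congr (fun {n} hn => ?_) s
    have h3 : ((n : ℕ) : ZMod 1) = 1 := Subsingleton.elim _ _
    rw [h3, map_one]
    simp
  refine ⟨rfl, fun s hs => LSeriesSummable_one_iff.2 hs, h1, ?_, ?_, ?_, ?_⟩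
  · exact ⟨1, zeta_cont⟩
  · refine ⟨Real.sqrt (1 / Real.pi), 1, fun _ => 1 / 2, fun _ => 0, 1, ?_, ?_, ?_, ?_, ?_⟩
    · have := Real.pi_pos
      positivity
    · intro j; norm_num
    · intro j; simp
    · simp
    · exact fun s h0 h1 => zeta_functional s h0 h1
  · intro ε hε
    refine ⟨1, fun n hn => ?_⟩
    rw [norm_one, one_mul]
    exact Real.one_le_rpow (by exact_mod_cast hn) hε.le
  · refine ⟨b, 0, 1, by norm_num, fun p hp l hl => ?_, fun s hs => ?_⟩
    · rw [Real.rpow_zero, one_mul]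
      exact hb p hp l hl
    · rw [h1 s hs, ← hfun s]
      exact hE s hs

theorem isSelberg_L {N : ℕ} [NeZero N] (χ : DirichletCharacter ℂ N) (hχ : χ.IsPrimitive)
    (h1 : χ ≠ 1) (τ : ℝ) :
    IsSelberg (fun n : ℕ => χ (n : ZMod N) * (n : ℂ) ^ (-((τ : ℂ) * I)))
      (fun s => χ.LFunction (s + τ * I)) := by
  obtain ⟨b, hb, hE⟩ := euler_L χ τ
  obtain ⟨mu, ε, hmu, hε, hfe⟩ := L_functional χ hχ h1 τ
  obtain ⟨A, C, hAC⟩ := L_order χ hχ h1 τ
  refine ⟨by simp, twist_summable χ τ, twist_eq χ τ, ?_, ?_, ?_, ?_⟩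
  · refine ⟨0, fun s => χ.LFunction (s + τ * I), ?_, ⟨A, C, hAC⟩, fun s hs => by simp⟩
    have h2 := DirichletCharacter.differentiable_LFunction h1
    exact h2.comp (by fun_prop)
  · refine ⟨Real.sqrt (N / Real.pi), 1, fun _ => 1 / 2, fun _ => mu, ε, ?_, ?_, ?_, hε, hfe⟩
    · have := Real.pi_pos
      have h3 : (0 : ℝ) < N := by
        exact_mod_cast Nat.pos_of_ne_zero (NeZero.ne N)
      positivity
    · intro j; norm_num
    · intro j; exact hmu
  · intro δ hδ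
    refine ⟨1, fun n hn => ?_⟩
    rw [one_mul, norm_mul]
    have h3 : ‖χ (n : ZMod N)‖ ≤ 1 := DirichletCharacter.norm_le_one χ _
    have h4 : ‖(n : ℂ) ^ (-((τ : ℂ) * I))‖ = 1 := by
      rw [Complex.norm_natCast_cpow_of_pos hn]
      simp
    rw [h4, mul_one]
    exact h3.trans (Real.one_le_rpow (by exact_mod_cast hn) hδ.le)
  · refine ⟨b, 0, 1, by norm_num, fun p hp l hl => ?_, fun s hs => ?_⟩
    · rw [Real.rpow_zero, one_mul]
      exact hb p hp l hl
    · rw [twist_eq χ τ s hs]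
      exact hE s hs

end Pool.Agent.H11.SC7
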